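import Mathlib
import Pool.Agent.Helper89K9.MA.Stm

/-!
# Project MA, leaf PT: functions with zero sums on all lines
-/

set_option autoImplicit false

namespace Pool.Agent.Helper93.MA

open Finset Polynomial

/-- The sum of a polynomial of degree less than `q - 1` over the field with `q` elements. -/
theorem sum_eval {F : Type} [Field F] [Fintype F] (P : F[X])
    (h : P.natDegree < Fintype.card F - 1) : ∑ c : F, P.eval c = 0 := by
  simp_rw [eval_eq_sum_range]
  rw [Finset.sum_comm]
  refine Finset.sum_eq_zero fun k hk => ?_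
  rw [← Finset.mul_sum, FiniteField.sum_pow_lt_card_sub_one, mul_zero]
  exact lt_of_le_of_lt (Nat.lt_succ_iff.mp (Finset.mem_range.mp hk)) h

theorem pt_aux (F : Type) [Field F] [Fintype F] [Algebra (ZMod 2) F] (t m : ℕ)
    (h1 : t * m < Fintype.card F - 1) (h2 : m + 1 ≤ Fintype.card F) :
    ∃ (f : (Fin t → Fin (m + 1)) → (Fin t → F) → ZMod 2) (j : (Fin t → Fin (m + 1)) → (Fin t → F)),
      (∀ (i : Fin t → Fin (m + 1)) (x u : Fin t → F), ∑ c : F, f i (x + c • u) = 0) ∧
      (∀ i, f i (j i) = 1) ∧ ∀ i i', f i (j i') ≠ 0 → i ≤ i' := by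
  classical
  -- the functional
  obtain ⟨φ, hφ⟩ : ∃ φ : F →ₗ[ZMod 2] ZMod 2, φ 1 = 1 := by
    by_contra hcon
    push Not at hcon
    have h0 : ∀ φ : Module.Dual (ZMod 2) F, φ (1 : F) = 0 := by
      intro φ
      have := hcon φ
      revert this
      generalize φ 1 = y
      revert y
      decide
    exact one_ne_zero ((Module.forall_dual_apply_eq_zero_iff (ZMod 2) (1 : F)).mp h0)
  -- distinct points
  obtain ⟨e⟩ : Nonempty (Fin (m + 1) ↪ F) := by
    apply Function.Embedding.nonempty_of_card_le
    simpa using h2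
  let N : Fin (m + 1) → F[X] := fun k =>
    ∏ l ∈ univ.filter (fun l => l < k), (C ((e k - e l)⁻¹) * (X - C (e l)))
  have hN1 : ∀ k, (N k).eval (e k) = 1 := by
    intro k
    simp only [N, eval_prod, eval_mul, eval_C, eval_sub, eval_X]
    refine Finset.prod_eq_one fun l hl => ?_
    have hlk : l ≠ k := (ne_of_lt (Finset.mem_filter.mp hl).2)
    refine inv_mul_cancel₀ (sub_ne_zero.mpr fun h => hlk (e.injective h).symm)
  have hN0 : ∀ k k', k' < k → (N k).eval (e k') = 0 := by
    intro k k' hk
    simp only [N, eval_prod, eval_mul, eval_C, eval_sub, eval_X]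
    refine Finset.prod_eq_zero (i := k') (by simp [hk]) (by simp)
  have hNd : ∀ k, (N k).natDegree ≤ k.val := by
    intro k
    refine (natDegree_prod_le _ _).trans ?_
    refine (Finset.sum_le_card_nsmul _ _ 1 fun l _ => ?_).trans ?_
    · refine natDegree_C_mul_le _ _ |>.trans ?_
      exact natDegree_X_sub_C_le _
    · have : (univ.filter (fun l : Fin (m + 1) => l < k)).card = k.val := by
        have := Fin.card_Iio k
        rw [← this]
        congr 1
        ext l
        simp
      simp [this]
  refine ⟨fun i x => φ (∏ s, (N (i s)).eval (x s)), fun i s => e (i s), ?_, ?_, ?_⟩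
  · intro i x u
    rw [← map_sum]
    have hP : ∀ c : F, ∏ s, (N (i s)).eval ((x + c • u) s) =
        (∏ s, (N (i s)).comp (C (x s) + C (u s) * X)).eval c := by
      intro c
      rw [eval_prod]
      refine Finset.prod_congr rfl fun s _ => ?_
      simp only [eval_comp, eval_add, eval_mul, eval_C, eval_X, Pi.add_apply, Pi.smul_apply,
        smul_eq_mul]
      rw [mul_comm]
    simp_rw [hP]
    rw [sum_eval, map_zero]
    refine lt_of_le_of_lt ?_ h1
    refine (natDegree_prod_le _ _).trans ?_
    refine (Finset.sum_le_card_nsmul _ _ m fun s _ => ?_).trans ?_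
    · refine natDegree_comp_le.trans ?_
      have h3 : (C (x s) + C (u s) * X).natDegree ≤ 1 := by
        refine (natDegree_add_le _ _).trans ?_
        simp only [natDegree_C, zero_le, sup_of_le_right]
        exact (natDegree_C_mul_le _ _).trans natDegree_X_le
      have h4 : (N (i s)).natDegree ≤ m := (hNd _).trans (Nat.lt_succ_iff.mp (i s).2)
      calc (N (i s)).natDegree * (C (x s) + C (u s) * X).natDegree ≤ m * 1 :=
            Nat.mul_le_mul h4 h3
        _ = m := mul_one m
    · simp
  · intro i
    simp only [hN1, Finset.prod_const_one, hφ]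
  · intro i i' h s
    by_contra hlt
    push Not at hlt
    apply h
    simp only
    rw [Finset.prod_eq_zero (Finset.mem_univ s) (hN0 _ _ hlt), map_zero]

open Pool.Agent.Helper89K9.MA in
theorem pt : S_PT := by
  intro a t ha ht
  have ha0 : a ≠ 0 := by omega
  have : Fintype (GaloisField 2 a) := Fintype.ofFinite _
  have hcard : Fintype.card (GaloisField 2 a) = 2 ^ a := by
    rw [← Nat.card_eq_fintype_card, GaloisField.card 2 a ha0]
  have h2 : 2 ≤ 2 ^ a := by
    calc 2 = 2 ^ 1 := by norm_num
      _ ≤ 2 ^ a := Nat.pow_le_pow_right (by norm_num) ha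
  have hm : t * ((2 ^ a - 2) / t) ≤ 2 ^ a - 2 := Nat.mul_div_le _ _
  have hm2 : (2 ^ a - 2) / t ≤ 2 ^ a - 2 := Nat.div_le_self _ _
  obtain ⟨f, j, h1, h3, h4⟩ := pt_aux (GaloisField 2 a) t ((2 ^ a - 2) / t)
    (by rw [hcard]; omega) (by rw [hcard]; omega)
  refine ⟨f, j, ?_, h3, h4⟩
  intro i x u inst
  convert h1 i x u

end Pool.Agent.Helper93.MA
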